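import Pool.Agent.H626R2.Loc.ODefs

set_option autoImplicit false

namespace Pool.Agent.H626R2.Loc

open MvPolynomial

section occ

variable {K : Type} [Field K] {n : ℕ}

/-- O5. -/
theorem SumProd.bddTrG {S : Set (MvPolynomial (Fin n) K)} {k : ℕ} {f : MvPolynomial (Fin n) K}
    (hf : SumProd k S f) : BddTrG (ClsG S 1) k f := by
  obtain ⟨a, M, hM, rfl⟩ := hf
  refine ⟨k, M, ?_, ?_, ?_⟩
  · intro i g hg
    exact ⟨fun _ => g, X 0, fun _ => hM i g hg, by simp⟩
  · intro u h
    obtain ⟨x, y, hxy, hu⟩ := Fintype.exists_ne_map_eq_of_card_lt u (by simp)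
    apply hxy
    have h2 := h.injective
    exact h2 (by simp only [hu])
  · refine Subalgebra.sum_mem _ fun i _ => ?_
    refine Subalgebra.mul_mem _ (Subalgebra.algebraMap_mem _ (a i)) ?_
    exact Algebra.subset_adjoin ⟨i, rfl⟩

end occ

end Pool.Agent.H626R2.Loc
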